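import Pool.Agent.W223.RA.Stms

set_option autoImplicit false

open Finset

namespace Pool.Agent.W88.RA

open Pool.Agent.W223.RA

theorem part_dvd {q x y N : ℕ} (hq : q.Prime) (hN : N = x * y) (hy : ¬ q ∣ y) :
    q ^ N.factorization q ∣ x := by
  have h1 : q ^ N.factorization q ∣ x * y := hN ▸ Nat.ordProj_dvd N q
  refine Nat.Coprime.dvd_of_dvd_mul_right ?_ h1
  exact Nat.Coprime.pow_left _ ((Nat.Prime.coprime_iff_not_dvd hq).2 hy)

theorem trip_cases {q a b : ℕ} (hq : q.Prime) (hT : Trip a b) :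
    (q ∣ a → q ^ (N3 a b).factorization q ∣ a) ∧ (q ∣ b → q ^ (N3 a b).factorization q ∣ b) ∧
    (q ∣ a + b → q ^ (N3 a b).factorization q ∣ a + b) ∧
    (¬ q ∣ a → ¬ q ∣ b → ¬ q ∣ a + b → (N3 a b).factorization q = 0) := by
  obtain ⟨ha, hab, hc⟩ := hT
  have key : ∀ x y : ℕ, Nat.Coprime x y → q ∣ x → q ∣ y → False := fun x y h h1 h2 =>
    Nat.not_coprime_of_dvd_of_dvd hq.one_lt h1 h2 h
  refine ⟨fun h => ?_, fun h => ?_, fun h => ?_, fun h1 h2 h3 => ?_⟩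
  · refine part_dvd hq (x := a) (y := b * (a + b)) (by rw [N3]; ring) ?_
    intro h2
    rcases (Nat.Prime.dvd_mul hq).1 h2 with h3 | h3
    · exact key a b hc h h3
    · exact key a b hc h ((Nat.dvd_add_right h).1 h3)
  · refine part_dvd hq (x := b) (y := a * (a + b)) (by rw [N3]; ring) ?_
    intro h2
    rcases (Nat.Prime.dvd_mul hq).1 h2 with h3 | h3
    · exact key a b hc h3 h
    · exact key a b hc ((Nat.dvd_add_left h).1 h3) h
  · refine part_dvd hq (x := a + b) (y := a * b) (by rw [N3]; ring) ?_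
    intro h2
    rcases (Nat.Prime.dvd_mul hq).1 h2 with h3 | h3
    · exact key a b hc h3 ((Nat.dvd_add_right h3).1 h)
    · exact key a b hc ((Nat.dvd_add_left h3).1 h) h3
  · apply Nat.factorization_eq_zero_of_not_dvd
    intro h
    rw [N3] at h
    rcases (Nat.Prime.dvd_mul hq).1 h with h4 | h4
    · rcases (Nat.Prime.dvd_mul hq).1 h4 with h5 | h5
      · exact h1 h5
      · exact h2 h5
    · exact h3 h4

theorem qpow_dvd {q a₁ b₁ a₂ b₂ : ℕ} (hq : q.Prime) (hT1 : Trip a₁ b₁) (hT2 : Trip a₂ b₂)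
    (h1 : q ∣ a₁ ↔ q ∣ a₂) (h2 : q ∣ b₁ ↔ q ∣ b₂) (h3 : q ∣ a₁ + b₁ ↔ q ∣ a₂ + b₂) :
    ((q ^ min ((N3 a₁ b₁).factorization q) ((N3 a₂ b₂).factorization q) : ℕ) : ℤ) ∣
      (a₁ : ℤ) * b₂ - a₂ * b₁ := by
  obtain ⟨k1, k2, k3, k4⟩ := trip_cases hq hT1
  obtain ⟨l1, l2, l3, l4⟩ := trip_cases hq hT2
  set v := (N3 a₁ b₁).factorization q
  set w := (N3 a₂ b₂).factorization q
  have hv : q ^ min v w ∣ q ^ v := pow_dvd_pow q (min_le_left _ _)
  have hw : q ^ min v w ∣ q ^ w := pow_dvd_pow q (min_le_right _ _)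
  by_cases c1 : q ∣ a₁
  · have e1 : ((q ^ min v w : ℕ) : ℤ) ∣ (a₁ : ℤ) := Int.natCast_dvd_natCast.2 (hv.trans (k1 c1))
    have e2 : ((q ^ min v w : ℕ) : ℤ) ∣ (a₂ : ℤ) :=
      Int.natCast_dvd_natCast.2 (hw.trans (l1 (h1.1 c1)))
    exact dvd_sub (e1.mul_right _) (e2.mul_right _)
  · by_cases c2 : q ∣ b₁
    · have e1 : ((q ^ min v w : ℕ) : ℤ) ∣ (b₁ : ℤ) := Int.natCast_dvd_natCast.2 (hv.trans (k2 c2))
      have e2 : ((q ^ min v w : ℕ) : ℤ) ∣ (b₂ : ℤ) :=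
        Int.natCast_dvd_natCast.2 (hw.trans (l2 (h2.1 c2)))
      exact dvd_sub (e2.mul_left _) (e1.mul_left _)
    · by_cases c3 : q ∣ a₁ + b₁
      · have e1 : ((q ^ min v w : ℕ) : ℤ) ∣ ((a₁ + b₁ : ℕ) : ℤ) :=
          Int.natCast_dvd_natCast.2 (hv.trans (k3 c3))
        have e2 : ((q ^ min v w : ℕ) : ℤ) ∣ ((a₂ + b₂ : ℕ) : ℤ) :=
          Int.natCast_dvd_natCast.2 (hw.trans (l3 (h3.1 c3)))
        have e3 : (a₁ : ℤ) * b₂ - a₂ * b₁ =
            a₁ * ((a₂ + b₂ : ℕ) : ℤ) - a₂ * ((a₁ + b₁ : ℕ) : ℤ) := by push_cast; ring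
        rw [e3]
        exact dvd_sub (e2.mul_left _) (e1.mul_left _)
      · have hv0 : v = 0 := k4 c1 c2 c3
        rw [hv0]
        simp

theorem core (S : Finset ℕ) (ℓ : ℝ) (hS : ∀ q ∈ S, q.Prime) (hℓ : 12 ≤ ℓ)
    (a₁ b₁ a₂ b₂ : ℕ) (hT1 : Trip a₁ b₁) (hT2 : Trip a₂ b₂) (hs1 : Scale ℓ a₁ b₁)
    (hs2 : Scale ℓ a₂ b₂) (hL : Light S a₁ b₁) (hN : Near S ℓ a₁ b₁ a₂ b₂)
    (hne : a₁ * b₂ ≠ a₂ * b₁)
    (hle : (((a₁ : ℤ) * b₂ - a₂ * b₁).natAbs) ≤ a₁ * b₂) : False := by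
  classical
  set D := (a₁ : ℤ) * b₂ - a₂ * b₁ with hD
  have hD0 : D ≠ 0 := by
    intro h
    apply hne
    have : (a₁ : ℤ) * b₂ = a₂ * b₁ := by linarith
    exact_mod_cast this
  set v : ℕ → ℕ := fun q => (N3 a₁ b₁).factorization q with hv
  set w : ℕ → ℕ := fun q => (N3 a₂ b₂).factorization q with hw
  have hM : (∏ q ∈ S, q ^ min (v q) (w q)) ∣ D.natAbs := by
    refine Finset.prod_dvd_of_isRelPrime ?_ ?_
    · intro q hq r hr hqr
      exact Nat.coprime_iff_isRelPrime.1 (Nat.coprime_pow_primes _ _ (hS q hq) (hS r hr) hqr)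
    · intro q hq
      obtain ⟨h1, h2, h3, _⟩ := hN q hq
      exact Int.natCast_dvd.1 (qpow_dvd (hS q hq) hT1 hT2 h1 h2 h3)
  have hMle : (∏ q ∈ S, q ^ min (v q) (w q)) ≤ a₁ * b₂ :=
    (Nat.le_of_dvd (Int.natAbs_pos.2 hD0) hM).trans hle
  have hqpos : ∀ q ∈ S, (0 : ℝ) < q := fun q hq => by exact_mod_cast (hS q hq).pos
  have hMpos : (0 : ℝ) < ((∏ q ∈ S, q ^ min (v q) (w q) : ℕ) : ℝ) := by
    push_cast
    exact Finset.prod_pos fun q hq => pow_pos (hqpos q hq) _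
  have ha1 : (0 : ℝ) < a₁ := by exact_mod_cast hT1.1
  have hb1 : (0 : ℝ) < b₁ := by exact_mod_cast lt_of_lt_of_le hT1.1 hT1.2.1
  have ha2 : (0 : ℝ) < a₂ := by exact_mod_cast hT2.1
  have hb2 : (0 : ℝ) < b₂ := by exact_mod_cast lt_of_lt_of_le hT2.1 hT2.2.1
  have hlogM : Real.log ((∏ q ∈ S, q ^ min (v q) (w q) : ℕ) : ℝ) =
      ∑ q ∈ S, ((min (v q) (w q) : ℕ) : ℝ) * Real.log q := by
    push_cast
    rw [Real.log_prod]
    · exact Finset.sum_congr rfl fun q hq => by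
        rw [Real.log_pow]
        push_cast
        rfl
    · intro q hq
      exact (pow_pos (hqpos q hq) _).ne'
  have hup : Real.log ((∏ q ∈ S, q ^ min (v q) (w q) : ℕ) : ℝ) ≤
      Real.log a₁ + 33 / 32 * ℓ := by
    calc Real.log ((∏ q ∈ S, q ^ min (v q) (w q) : ℕ) : ℝ)
        ≤ Real.log ((a₁ : ℝ) * b₂) := by
          apply Real.log_le_log hMpos
          exact_mod_cast hMle
      _ = Real.log a₁ + Real.log b₂ := Real.log_mul ha1.ne' hb2.ne'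
      _ ≤ Real.log a₁ + Real.log ((a₂ + b₂ : ℕ) : ℝ) := by
          have : Real.log (b₂ : ℝ) ≤ Real.log ((a₂ + b₂ : ℕ) : ℝ) := by
            apply Real.log_le_log hb2
            push_cast
            linarith
          linarith
      _ ≤ Real.log a₁ + 33 / 32 * ℓ := by
          have := hs2.2
          linarith
  have hlow : ∑ q ∈ S, ((v q : ℕ) : ℝ) * Real.log q - ℓ / 32 ≤
      ∑ q ∈ S, ((min (v q) (w q) : ℕ) : ℝ) * Real.log q := by
    have hu : ∀ q ∈ S, ((v q : ℕ) : ℝ) * Real.log q - ℓ / (32 * (S.card + 1)) ≤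
        ((min (v q) (w q) : ℕ) : ℝ) * Real.log q := by
      intro q hq
      have h4 := (hN q hq).2.2.2
      have h5 := (abs_le.1 h4).2
      have hpos : 0 ≤ ℓ / (32 * ((S.card : ℝ) + 1)) := by positivity
      rcases le_total (v q) (w q) with h | h
      · rw [min_eq_left h]
        linarith
      · rw [min_eq_right h]
        have h6 : ((v q : ℝ) - w q) * Real.log q ≤ ℓ / (32 * (S.card + 1)) := h5
        have h7 : ((v q : ℝ) - w q) * Real.log q = v q * Real.log q - w q * Real.log q := by ring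
        linarith
    have hsum := Finset.sum_le_sum hu
    rw [Finset.sum_sub_distrib, Finset.sum_const, nsmul_eq_mul] at hsum
    have hc : (S.card : ℝ) * (ℓ / (32 * (S.card + 1))) ≤ ℓ / 32 := by
      have hc0 : (0 : ℝ) ≤ S.card := Nat.cast_nonneg _
      rw [mul_div_assoc', div_le_div_iff₀ (by positivity) (by norm_num)]
      nlinarith
    linarith
  have hLight := hL
  rw [Light] at hLight
  have hlogN : Real.log (N3 a₁ b₁ : ℝ) =
      Real.log a₁ + Real.log b₁ + Real.log ((a₁ + b₁ : ℕ) : ℝ) := by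
    rw [N3]
    push_cast
    rw [Real.log_mul (by positivity) (by positivity), Real.log_mul ha1.ne' hb1.ne']
  have hbc : Real.log ((a₁ + b₁ : ℕ) : ℝ) - Real.log 2 ≤ Real.log b₁ := by
    have hcpos : (0 : ℝ) < ((a₁ + b₁ : ℕ) : ℝ) := by push_cast; linarith
    rw [← Real.log_div hcpos.ne' (by norm_num)]
    apply Real.log_le_log (by linarith)
    have h : (a₁ : ℝ) ≤ b₁ := by exact_mod_cast hT1.2.1
    push_cast
    linarith
  have hs := hs1.1
  have hl2 : Real.log 2 < 0.6931471808 := Real.log_two_lt_d9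
  rw [hlogM] at hup
  have hv' : ∑ q ∈ S, ((N3 a₁ b₁).factorization q : ℝ) * Real.log q =
      ∑ q ∈ S, ((v q : ℕ) : ℝ) * Real.log q := rfl
  rw [hv'] at hLight
  linarith

theorem tGP1 : Pool.Agent.W223.RA.StmtGP1 := by
  intro S ℓ hS hℓ a₁ b₁ a₂ b₂ hT1 hT2 hs1 hs2 hL1 hL2 hN
  by_cases h : a₁ * b₂ = a₂ * b₁
  · have h1 : a₁ ∣ a₂ := by
      have : a₁ ∣ a₂ * b₁ := ⟨b₂, h.symm⟩
      exact Nat.Coprime.dvd_of_dvd_mul_right hT1.2.2 this
    have h2 : a₂ ∣ a₁ := by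
      have : a₂ ∣ a₁ * b₂ := ⟨b₁, h⟩
      exact Nat.Coprime.dvd_of_dvd_mul_right hT2.2.2 this
    have h3 : a₁ = a₂ := Nat.dvd_antisymm h1 h2
    refine ⟨h3, ?_⟩
    subst h3
    exact (Nat.eq_of_mul_eq_mul_left hT1.1 h).symm
  · exfalso
    rcases le_total (a₂ * b₁) (a₁ * b₂) with hle | hle
    · refine core S ℓ hS hℓ a₁ b₁ a₂ b₂ hT1 hT2 hs1 hs2 hL1 hN h ?_
      zify
      have h1 : (a₂ : ℤ) * b₁ ≤ a₁ * b₂ := by exact_mod_cast hle
      have h2 : (0 : ℤ) ≤ a₂ * b₁ := by positivity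
      rw [abs_of_nonneg (by linarith)]
      linarith
    · have hN' : Near S ℓ a₂ b₂ a₁ b₁ := by
        intro q hq
        obtain ⟨h1, h2, h3, h4⟩ := hN q hq
        refine ⟨h1.symm, h2.symm, h3.symm, ?_⟩
        rw [← abs_neg]
        convert h4 using 2
        ring
      refine core S ℓ hS hℓ a₂ b₂ a₁ b₁ hT2 hT1 hs2 hs1 hL2 hN' (fun h' => h h'.symm) ?_
      zify
      have h1 : (a₁ : ℤ) * b₂ ≤ a₂ * b₁ := by exact_mod_cast hle
      have h2 : (0 : ℤ) ≤ a₁ * b₂ := by positivity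
      rw [abs_of_nonneg (by linarith)]
      linarith

end Pool.Agent.W88.RA
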